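import Pool.Agent.Lib.MP_72b724_gt.Interfaces

/-!
# MP_72b724_gt: module OMEGA
-/

open scoped ENNReal Topology BigOperators Pointwise
open MeasureTheory Set Filter Topology Pool.Agent.Lib.MP_904b2a_gt Pool.Agent.Lib.MP_89fcdb_gt

namespace Pool.Agent.Lib.MP_72b724_gt.H36

noncomputable section

/-! ## Generalities -/

theorem subexp_of_subsingleton (G : Type) [Group G] [Subsingleton G] : SubexpGrowth G := by
  intro S _ b hb
  refine Filter.Eventually.of_forall fun k => ?_
  have h1 : (S ^ k).ncard ≤ 1 := by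
    rw [Set.ncard_le_one_iff_subsingleton]
    exact Set.subsingleton_of_subsingleton
  have h2 : ((S ^ k).ncard : ℝ) ≤ 1 := by exact_mod_cast h1
  exact h2.trans (one_le_pow₀ hb.le)

theorem cob_eq {X : Type} [TopologicalSpace X] (m : ℕ) (φ : Sing m X → ℝ) (σ : Sing (m + 1) X) :
    cob (A := ℝ) m φ σ = ∑ i : Fin (m + 2), (-1 : ℝ) ^ (i : ℕ) *
      φ (ContinuousMap.comp σ (smap i.succAbove)) := by
  rw [cob_apply, Finset.sum_range]
  refine Finset.sum_congr rfl fun i _ => ?_
  rw [H35.fv_eq_succAbove, zsmul_eq_mul]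
  push_cast
  rfl

theorem delta_apply (F : FSet) {m : ℕ} (f : Bdd (F.X m)) (x : F.X (m + 1)) :
    (F.δ f).1 x = ∑ i : Fin (m + 2), (-1 : ℝ) ^ (i : ℕ) * f.1 (F.d i x) := by
  unfold FSet.δ
  rw [LinearMap.sum_apply, Submodule.coe_sum, Finset.sum_apply]
  rfl

variable {M : Type} [TopologicalSpace M] {x₀ : M}

theorem proj_map {m k : ℕ} (g : Fin (k + 1) →o Fin (m + 1)) (f : USimp x₀ m) :
    USimp.proj ((covS x₀).map g f : USimp x₀ k) = (USimp.proj f).comp (smap g) := rfl

theorem proj_tr {m : ℕ} (g : FundamentalGroup M x₀) (f : USimp x₀ m) :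
    (USimp.tr g f).proj = f.proj := rfl

/-- The value of a vertex. -/
theorem vtx_val {m : ℕ} (i : Fin (m + 1)) (f : USimp x₀ m) (p : Simp 0) :
    ((covS x₀).vtx i f : USimp x₀ 0).1 p = f.1 (stdSimplex.vertex i) := by
  have hp : p = stdSimplex.vertex 0 := Subsingleton.elim _ _
  rw [hp]
  change f.1 (smap _ (stdSimplex.vertex 0)) = _
  have : smap (OrderHom.const (Fin (0 + 1)) i : Fin (0 + 1) →o Fin (m + 1))
      (stdSimplex.vertex 0) = stdSimplex.vertex i := by
    change stdSimplex.map _ _ = _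
    rw [stdSimplex.map_vertex]
    rfl
  rw [this]

/-- Two points of a simplex of the universal cover whose segment stays over `D`. -/
theorem sameComp_seg {m : ℕ} (D : Set M) (f : USimp x₀ m) (p q : Simp m)
    (h : ∀ t : unitInterval, (f.1 (segm p q t)).1 ∈ D) : SameComp D (f.1 p) (f.1 q) := by
  obtain ⟨hc, h2⟩ := f.2
  exact ⟨segPath hc p q, h, h2 p q⟩

theorem sameComp_trans {D : Set M} {p q r : Cov x₀} (h1 : SameComp D p q) (h2 : SameComp D q r) :
    SameComp D p r := by
  obtain ⟨γ, hγ, e1⟩ := h1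
  obtain ⟨γ', hγ', e2⟩ := h2
  refine ⟨γ.trans γ', ?_, ?_⟩
  · intro t
    rw [Path.trans_apply]
    split_ifs
    · exact hγ _
    · exact hγ' _
  · rw [e2, e1, Path.Homotopic.Quotient.trans_assoc, Path.Homotopic.Quotient.mk_trans]

/-- A path from `z` moves to the universal cover after a translation. -/
theorem exists_tr (p : Cov x₀) (c : Path.Homotopic.Quotient x₀ p.1) :
    ∃ g : FundamentalGroup M x₀, Cov.tr g p = ⟨p.1, c⟩ := by
  refine ⟨(FundamentalGroup.fromPath (c.trans p.2.symm))⁻¹, ?_⟩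
  unfold Cov.tr
  rw [inv_inv]
  refine Sigma.ext rfl (heq_of_eq ?_)
  change (c.trans p.2.symm).trans p.2 = c
  rw [Path.Homotopic.Quotient.trans_assoc, Path.Homotopic.Quotient.symm_trans,
    Path.Homotopic.Quotient.trans_refl]

/-- An alternating function vanishes on tuples with two equal entries. -/
theorem alt_eq_zero {X : Type} {m : ℕ} {G : (Fin m → X) → ℝ} (hG : IsAlt G) {u : Fin m → X}
    {i j : Fin m} (hij : i ≠ j) (h : u i = u j) : G u = 0 := by
  have h1 := hG (Equiv.swap i j) u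
  rw [Equiv.Perm.sign_swap hij] at h1
  have h2 : (fun a => u (Equiv.swap i j a)) = u := by
    funext a
    rcases eq_or_ne a i with rfl | ha
    · rw [Equiv.swap_apply_left, h]
    · rcases eq_or_ne a j with rfl | hb
      · rw [Equiv.swap_apply_right, h]
      · rw [Equiv.swap_apply_of_ne_of_ne ha hb]
  rw [h2] at h1
  push_cast at h1
  linarith

theorem typ_some {D : ℕ} {θ : ℝ} {y : Fin D → ℝ} {k : Fin D} {b : Bool}
    (h : typ θ y = some (k, b)) : if b = true then θ < y k else y k < -θ := by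
  unfold typ at h
  split_ifs at h with h1
  · have h2 := Finset.min'_mem _ h1
    simp only [Option.some.injEq, Prod.mk.injEq] at h
    obtain ⟨rfl, rfl⟩ := h
    rw [Finset.mem_filter] at h2
    have h3 := h2.2
    simp only [decide_eq_true_eq]
    split_ifs with h4
    · rwa [abs_of_pos h4] at h3
    · rw [abs_of_nonpos (not_lt.1 h4)] at h3
      linarith

/-! ## The regions -/

/-- The regions. -/
def Dreg {n N : ℕ} {M : Type} [MetricSpace M] (S : SepSys (n + 1) N M) (r : ℝ) :
    Lab (n + 1) N M → Set M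
  | Sum.inl z => Metric.ball z (2 * r)
  | Sum.inr kl => Metric.ball (S.ctr kl.1 kl.2) (S.rad kl.1 kl.2)

theorem loopsIn_small {M : Type} [MetricSpace M] {ε : ℝ}
    (h : ∀ (x : M) (γ : Path x x), (∀ t, dist (γ t) x < ε) → Path.Homotopic γ (Path.refl x))
    (z : M) (r : ℝ) (hr : 4 * r ≤ ε) (x : M) (hx : x ∈ Metric.ball z (2 * r)) :
    SubexpGrowth (loopsIn (Metric.ball z (2 * r)) x) := by
  have h1 : loopsIn (Metric.ball z (2 * r)) x = ⊥ := by
    unfold loopsIn
    rw [Subgroup.closure_eq_bot_iff]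
    rintro g ⟨γ, hγ, rfl⟩
    have h2 : Path.Homotopic γ (Path.refl x) := by
      refine h x γ fun t => ?_
      have h3 := hγ t
      rw [Metric.mem_ball] at h3 hx
      have := dist_triangle_right (γ t) x z
      linarith
    rw [Set.mem_singleton_iff, Path.Homotopic.Quotient.eq.2 h2]
    rfl
  rw [h1]
  exact subexp_of_subsingleton _

/-- [OMEGA] -/
theorem omega (hLab : LabelStatement) (hReg : RegStatement) (hAct : CovActStatement)
    (hKan : CovKanStatement) (hConn : CovConnStatement) (hAmen : AmenStatement)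
    (hRb : RbExpStatement) (hContr : ContractionStatement) (hComp : CompStatement) :
    OmegaStatement := by
  classical
  intro n
  obtain ⟨c, hc, hBC⟩ := hContr (n + 1)
  obtain ⟨K, hK, hcomp⟩ := hComp n c hc
  refine ⟨K, hK, ?_⟩
  intro N M _ _ vol hM S Z hZ hS hgr
  have := hM.compact
  have := hM.pathConn
  obtain ⟨x₀⟩ : Nonempty M := inferInstance
  obtain ⟨ε₀, hε₀, hlsc⟩ := hM.lsc
  obtain ⟨L, lab, a, b, hr0, l1, l2, l3, l4, l5⟩ :=
    hLab (n + 1) N (by omega) M vol S Z hZ hS (ε₀ / 2) (by positivity)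
  refine ⟨L, ?_⟩
  intro φ hφ hcoc
  obtain ⟨⟨A, hA⟩, hlift, huniq⟩ := hAct M x₀
  obtain ⟨P, hP1, hP2⟩ := hConn M x₀
  have hbc : HasBC (covS x₀).toF (n + 1) c := hBC _ P (hKan M x₀) hP1 hP2
  have hrpos := L.r_pos
  have hεpos := L.ε_pos
  -- the regions
  have hgrow : ∀ v, ∀ x ∈ Dreg S L.r v, SubexpGrowth (loopsIn (Dreg S L.r v) x) := by
    rintro (z | ⟨k, l⟩) x hx
    · exact loopsIn_small hlsc z L.r (by linarith) x hx
    · exact hgr k l x hx
  obtain ⟨X, hX, cl, hst, hcl1, hcl2⟩ := hReg M x₀ (Lab (n + 1) N M) (Dreg S L.r) hgrow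
  have hDinr : ∀ x k l, lab x = Sum.inr (k, l) → ∀ y, dist x y < L.ε →
      y ∈ Dreg S L.r (lab x) := by
    intro x k l h y hy
    rw [h]
    exact S.reg k l y (l1 x k l h y hy)
  have hD : ∀ x, x ∈ Dreg S L.r (lab x) := by
    intro x
    rcases h : lab x with z | ⟨k, l⟩
    · have := (l2 x z h).2
      change dist x z < 2 * L.r
      linarith
    · have h2 := hDinr x k l h x (by rwa [dist_self])
      rwa [h] at h2
  -- the map of vertices
  obtain ⟨Λpt, hΛdef⟩ : ∃ Λpt : Cov x₀ → X, ∀ p, Λpt p = cl (lab p.1) p (hD p.1) :=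
    ⟨fun p => cl (lab p.1) p (hD p.1), fun _ => rfl⟩
  have hΛpt : ∀ (g : FundamentalGroup M x₀) p, Λpt (Cov.tr g p) = g • Λpt p := by
    intro g p
    rw [hΛdef, hΛdef, hcl1]
    rfl
  have hΛ : ∀ (g : FundamentalGroup M x₀) (f : USimp x₀ 0),
      Λpt ((A.tr g (m := 0) f : USimp x₀ 0).1 (stdSimplex.vertex 0)) =
        g • Λpt (f.1 (stdSimplex.vertex 0)) := by
    intro g f
    rw [hA]
    exact hΛpt _ _
  obtain ⟨G₀, ψ₀, hAlt, hGb, hGinv, hψinv, hform⟩ :=
    hcomp (FundamentalGroup M x₀) (covS x₀) A X hbc (fun x => hAmen _ (hst x))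
      (fun f : USimp x₀ 0 => Λpt (f.1 (stdSimplex.vertex 0))) hΛ
      (⟨fun f : USimp x₀ (n + 1) => φ f.proj, 1, fun f => hφ _⟩ :
        Bdd ((covS x₀).X (n + 1))) 1 (fun f => hφ _) (by
        apply Subtype.ext
        funext f
        have h1 := congrFun hcoc (USimp.proj f)
        rw [cob_eq] at h1
        exact (delta_apply (covS x₀).toF _ f).trans h1) (by
        intro g f
        exact (congrArg (fun t : USimp x₀ (n + 1) => φ (USimp.proj t)) (hA g (n + 1) f)).trans
          (congrArg φ (proj_tr g f)))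
  choose lift hlift using hlift
  have hG1 : ∀ u, |G₀ u| ≤ K := fun u => by simpa using hGb u
  -- independence of the lift
  have hωf : ∀ f : USimp x₀ (n + 1), G₀ (fun i => Λpt (f.1 (stdSimplex.vertex i))) =
      G₀ (fun i => Λpt ((lift (n + 1) f.proj).1 (stdSimplex.vertex i))) := by
    intro f
    obtain ⟨g, hg⟩ := huniq (n + 1) f (lift (n + 1) f.proj) (hlift _ _).symm
    rw [hg, ← hGinv g]
    congr 1
    funext i
    exact (hΛpt g _).symm
  have hψf : ∀ f : USimp x₀ n, ψ₀ f = ψ₀ (lift n f.proj) := by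
    intro f
    obtain ⟨g, hg⟩ := huniq n f (lift n f.proj) (hlift _ _).symm
    have h2 := hψinv g f
    rw [hA] at h2
    rw [hg, h2]
  obtain ⟨ω, hω⟩ : ∃ ω : Sing (n + 1) M → ℝ, ∀ τ, ω τ =
      G₀ (fun i => Λpt ((lift (n + 1) τ).1 (stdSimplex.vertex i))) := ⟨_, fun _ => rfl⟩
  obtain ⟨ψ, hψ⟩ : ∃ ψ : Sing n M → ℝ, ∀ τ, ψ τ = ψ₀ (lift n τ) := ⟨_, fun _ => rfl⟩
  have hdec : φ = ω + cob (A := ℝ) n ψ := by
    funext τ
    have h1 := hform (lift (n + 1) τ)
    change φ (USimp.proj (lift (n + 1) τ)) = _ at h1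
    rw [hlift] at h1
    rw [h1, Pi.add_apply, hω, cob_eq]
    congr 1
    · congr 1
      funext i
      exact congrArg Λpt (vtx_val i (lift (n + 1) τ) _)
    · refine Finset.sum_congr rfl fun i _ => ?_
      rw [hψ]
      congr 1
      have h2 := hψf ((covS x₀).d i (lift (n + 1) τ) : USimp x₀ n)
      have h3 : USimp.proj ((covS x₀).d i (lift (n + 1) τ) : USimp x₀ n) =
          ContinuousMap.comp τ (smap i.succAbove) := by
        have h4 : USimp.proj ((covS x₀).d i (lift (n + 1) τ) : USimp x₀ n) =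
          (USimp.proj (lift (n + 1) τ)).comp (smap i.succAbove) := rfl
        rw [h4, hlift]
      rw [h3] at h2
      exact h2
  -- the coefficients
  have hDl : ∀ z ∈ Z, ∀ (t : Option (Fin (n + 1) × Bool)) (y : M), dist y z < 2 * L.r →
      y ∈ Dreg S L.r (labOf z (a z) (b z) t) := by
    intro z hz t y hy
    rcases t with _ | ⟨k, _ | _⟩
    · exact hy
    · exact (l5 z hz k y hy).1
    · exact (l5 z hz k y hy).2
  have hself : ∀ z : M, dist z z < 2 * L.r := fun z => by rw [dist_self]; linarith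
  have hcz : ∀ z : M, ∃ _ : Path.Homotopic.Quotient x₀ z, True := fun z =>
    ⟨Path.Homotopic.Quotient.mk (PathConnectedSpace.somePath x₀ z), trivial⟩
  choose cz _ using hcz
  obtain ⟨H, hH⟩ : ∃ H : ∀ z ∈ Z, Option (Fin (n + 1) × Bool) → X, ∀ z hz t,
      H z hz t = cl (labOf z (a z) (b z) t) ⟨z, cz z⟩ (hDl z hz t z (hself z)) :=
    ⟨fun z hz t => _, fun _ _ _ => rfl⟩
  obtain ⟨G, hG⟩ : ∃ G : M → (Fin (n + 1) → Bool) → ℝ, ∀ z s, G z s =
      if hz : z ∈ Z then G₀ (fun i => H z hz (stdT s i)) else 0 := ⟨_, fun _ _ => rfl⟩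
  refine ⟨ω, ψ, G, ⟨?_, ?_, ?_⟩, ?_, hdec⟩
  · -- cocycle
    have h1 : ω = φ - cob (A := ℝ) n ψ := by rw [hdec]; abel
    rw [h1, map_sub, hcoc, cob_cob, sub_zero]
  · -- far
    intro τ hτ hfar
    rw [hω]
    obtain ⟨f, hf⟩ : ∃ f, lift (n + 1) τ = f := ⟨_, rfl⟩
    have hfτ : ∀ p, (f.1 p).1 = τ p := by
      intro p
      rw [← hf]
      exact DFunLike.congr_fun (hlift (n + 1) τ) p
    rw [hf]
    have h1 : ∀ i : Fin (n + 2), ∃ kl : Fin (n + 1) × Fin N,
        lab (τ (stdSimplex.vertex i)) = Sum.inr kl := by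
      intro i
      rcases h : lab (τ (stdSimplex.vertex i)) with z | kl
      · obtain ⟨h2, h3⟩ := l2 _ _ h
        exact absurd (hfar z h2 (stdSimplex.vertex i)) (not_le.2 h3)
      · exact ⟨kl, rfl⟩
    choose kl hkl using h1
    obtain ⟨i, j, hij, hk⟩ : ∃ i j : Fin (n + 2), i ≠ j ∧ (kl i).1 = (kl j).1 :=
      Fintype.exists_ne_map_eq_of_card_lt (fun i => (kl i).1) (by simp)
    have hl : (kl i).2 = (kl j).2 := by
      refine l3 (τ (stdSimplex.vertex i)) (τ (stdSimplex.vertex j)) (kl i).1 _ _ (hτ _ _)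
        (hkl i) ?_
      rw [hkl j, hk]
    have hkk : kl i = kl j := Prod.ext hk hl
    refine alt_eq_zero hAlt hij ?_
    have h5 : lab (f.1 (stdSimplex.vertex i)).1 = lab (f.1 (stdSimplex.vertex j)).1 := by
      rw [hfτ, hfτ, hkl, hkl, hkk]
    have h6 : SameComp (Dreg S L.r (lab (f.1 (stdSimplex.vertex i)).1))
        (f.1 (stdSimplex.vertex i)) (f.1 (stdSimplex.vertex j)) := by
      refine sameComp_seg _ f _ _ fun t => ?_
      rw [hfτ, hfτ]
      exact hDinr _ (kl i).1 (kl i).2 (hkl i) _ (hτ _ _)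
    have hDj : (f.1 (stdSimplex.vertex j)).1 ∈
        Dreg S L.r (lab (f.1 (stdSimplex.vertex i)).1) := by
      rw [h5]
      exact hD _
    rw [hΛdef, hΛdef, hcl2 _ _ _ (hD _) hDj h6]
    congr 1
  · -- near
    intro τ hτ z hz hnear
    obtain ⟨f, hf⟩ : ∃ f, lift (n + 1) τ = f := ⟨_, rfl⟩
    have hfτ : ∀ p, (f.1 p).1 = τ p := by
      intro p
      rw [← hf]
      exact DFunLike.congr_fun (hlift (n + 1) τ) p
    -- a good lift
    have hball := hM.ball z (2 * L.r) (by linarith)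
    obtain ⟨δ, hδ⟩ := hball.joinedIn z (Metric.mem_ball_self (by linarith))
      (f.1 (stdSimplex.vertex 0)).1 (by
        rw [Metric.mem_ball, hfτ]
        exact hnear _)
    obtain ⟨g, hg⟩ := exists_tr (f.1 (stdSimplex.vertex 0))
      ((cz z).trans (Path.Homotopic.Quotient.mk δ))
    have hsame : ∀ i, SameComp (Metric.ball z (2 * L.r)) (⟨z, cz z⟩ : Cov x₀)
        ((USimp.tr g f).1 (stdSimplex.vertex i)) := by
      intro i
      have h1 : SameComp (Metric.ball z (2 * L.r)) (⟨z, cz z⟩ : Cov x₀)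
          ((USimp.tr g f).1 (stdSimplex.vertex 0)) := by
        have h2 : (USimp.tr g f).1 (stdSimplex.vertex 0) =
            Cov.tr g (f.1 (stdSimplex.vertex 0)) := rfl
        rw [h2, hg]
        exact ⟨δ, hδ, rfl⟩
      refine sameComp_trans h1 (sameComp_seg _ _ _ _ fun t => ?_)
      rw [Metric.mem_ball]
      change dist (f.1 _).1 z < _
      rw [hfτ]
      exact hnear _
    have hval : ∀ i : Fin (n + 2), Λpt ((USimp.tr g f).1 (stdSimplex.vertex i)) =
        H z hz (typ L.θ (L.F z (τ (stdSimplex.vertex i)))) := by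
      intro i
      have h1 : ((USimp.tr g f).1 (stdSimplex.vertex i)).1 = τ (stdSimplex.vertex i) := hfτ _
      have h2 : lab ((USimp.tr g f).1 (stdSimplex.vertex i)).1 =
          labOf z (a z) (b z) (typ L.θ (L.F z (τ (stdSimplex.vertex i)))) := by
        rw [h1]
        exact l4 z hz _ (hnear _)
      have h3 : ((USimp.tr g f).1 (stdSimplex.vertex i)).1 ∈ Dreg S L.r
          (labOf z (a z) (b z) (typ L.θ (L.F z (τ (stdSimplex.vertex i))))) := by
        rw [← h2]
        exact hD _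
      have h4 : cl (lab ((USimp.tr g f).1 (stdSimplex.vertex i)).1) _ (hD _) =
          cl (labOf z (a z) (b z) (typ L.θ (L.F z (τ (stdSimplex.vertex i)))))
            ((USimp.tr g f).1 (stdSimplex.vertex i)) h3 := by
        congr 1
      rw [hΛdef, h4, hH]
      refine (hcl2 _ _ _ _ _ ?_).symm
      obtain ⟨γ, hγ, e⟩ := hsame i
      exact ⟨γ, fun t => hDl z hz _ _ (hγ t), e⟩
    have hω2 : ω τ = G₀ (fun i => H z hz (typ L.θ (L.F z (τ (stdSimplex.vertex i))))) := by
      rw [hω, hf, ← hGinv g]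
      congr 1
      funext i
      rw [← hval i]
      exact (hΛpt g _).symm
    rw [hω2]
    have hcons : Consist (fun i : Fin (n + 2) => typ L.θ (L.F z (τ (stdSimplex.vertex i)))) := by
      intro i j k β β' hi hj
      have hθ := L.θ_pos
      have hi' := typ_some hi
      have hj' := typ_some hj
      have h1 := (L.lip z hz k).dist_le_mul (τ (stdSimplex.vertex i)) (τ (stdSimplex.vertex j))
      rw [NNReal.coe_one, one_mul, Real.dist_eq] at h1
      have h2 := hτ (stdSimplex.vertex i) (stdSimplex.vertex j)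
      have h3 := L.ε_le'
      have h4 : |L.F z (τ (stdSimplex.vertex i)) k - L.F z (τ (stdSimplex.vertex j)) k| < L.θ := by
        linarith
      rw [abs_lt] at h4
      rcases β with _ | _ <;> rcases β' with _ | _ <;> simp at hi' hj' ⊢ <;> linarith
    have hG' : IsAlt (fun t : Fin (n + 2) → Option (Fin (n + 1) × Bool) =>
        G₀ (fun i => H z hz (t i))) := fun s u => hAlt s (fun i => H z hz (u i))
    have h7 := hRb (n + 1) _ hG' _ hcons
    rw [h7]
    refine Finset.sum_congr rfl fun s _ => ?_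
    rw [hG, dif_pos hz]
  · intro z s
    rw [hG]
    split_ifs
    · exact hG1 _
    · rw [abs_zero]
      exact hK

end

end Pool.Agent.Lib.MP_72b724_gt.H36
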