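import Pool.Agent.Lib.MP_72b724_gt.Interfaces

/-!
# MP_72b724_gt: module RB
-/

open scoped BigOperators

namespace Pool.Agent.Lib.MP_72b724_gt.H36

noncomputable section

theorem stdT_zero {D : ℕ} (s : Fin D → Bool) : stdT s 0 = none := rfl

theorem stdT_succ {D : ℕ} (s : Fin D → Bool) (k : Fin D) : stdT s k.succ = some (k, s k) := rfl

theorem stdT_injective {D : ℕ} (s : Fin D → Bool) : Function.Injective (stdT s) := by
  intro i j h
  induction i using Fin.cases with
  | zero =>
    induction j using Fin.cases with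
    | zero => rfl
    | succ j =>
      rw [stdT_zero, stdT_succ] at h
      exact absurd h (by simp)
  | succ i =>
    induction j using Fin.cases with
    | zero =>
      rw [stdT_zero, stdT_succ] at h
      exact absurd h (by simp)
    | succ j =>
      rw [stdT_succ, stdT_succ] at h
      simp only [Option.some.injEq, Prod.mk.injEq] at h
      rw [h.1]

theorem rb_eq {D : ℕ} {s : Fin D → Bool} {t : Fin (D + 1) → Option (Fin D × Bool)}
    (σ : Equiv.Perm (Fin (D + 1))) (h : ∀ i, t i = stdT s (σ i)) :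
    rb s t = (Equiv.Perm.sign σ : ℤ) := by
  classical
  have hex : ∃ σ : Equiv.Perm (Fin (D + 1)), ∀ i, t i = stdT s (σ i) := ⟨σ, h⟩
  have h1 : hex.choose = σ := by
    apply Equiv.ext
    intro i
    exact stdT_injective s ((hex.choose_spec i).symm.trans (h i))
  unfold rb
  rw [dif_pos hex, h1]

theorem rb_eq_zero {D : ℕ} {s : Fin D → Bool} {t : Fin (D + 1) → Option (Fin D × Bool)}
    (h : ¬ ∃ σ : Equiv.Perm (Fin (D + 1)), ∀ i, t i = stdT s (σ i)) : rb s t = 0 := by
  classical
  unfold rb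
  rw [dif_neg h]

theorem rb_perm {D : ℕ} (s : Fin D → Bool) (t : Fin (D + 1) → Option (Fin D × Bool))
    (π : Equiv.Perm (Fin (D + 1))) :
    rb s (fun i => t (π i)) = (Equiv.Perm.sign π : ℤ) * rb s t := by
  by_cases h : ∃ σ : Equiv.Perm (Fin (D + 1)), ∀ i, t i = stdT s (σ i)
  · obtain ⟨σ, hσ⟩ := h
    rw [rb_eq σ hσ, rb_eq (σ * π) (fun i => by rw [hσ, Equiv.Perm.mul_apply]), map_mul]
    push_cast
    ring
  · rw [rb_eq_zero h, mul_zero]
    apply rb_eq_zero
    rintro ⟨σ, hσ⟩
    refine h ⟨σ * π⁻¹, fun i => ?_⟩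
    have := hσ (π⁻¹ i)
    rwa [show π (π⁻¹ i) = i from π.apply_symm_apply i] at this

theorem rb_eq_zero_of_eq {D : ℕ} (s : Fin D → Bool) {t : Fin (D + 1) → Option (Fin D × Bool)}
    {i j : Fin (D + 1)} (hij : i ≠ j) (h : t i = t j) : rb s t = 0 := by
  apply rb_eq_zero
  rintro ⟨σ, hσ⟩
  rw [hσ, hσ] at h
  exact hij (σ.injective (stdT_injective s h))

/-- The type of an entry. -/
def ty {D : ℕ} : Option (Fin D × Bool) → Fin (D + 1)
  | none => 0
  | some (k, _) => k.succ

theorem eq_of_ty {D m : ℕ} {t : Fin m → Option (Fin D × Bool)} (ht : Consist t) {i j : Fin m}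
    (h : ty (t i) = ty (t j)) : t i = t j := by
  rcases hi : t i with _ | ⟨k, b⟩
  · rcases hj : t j with _ | ⟨k', b'⟩
    · rfl
    · rw [hi, hj] at h
      exact absurd h (Fin.succ_ne_zero k').symm
  · rcases hj : t j with _ | ⟨k', b'⟩
    · rw [hi, hj] at h
      exact absurd h (Fin.succ_ne_zero k)
    · rw [hi, hj] at h
      have h1 : k = k' := Fin.succ_injective _ h
      subst h1
      rw [ht i j k b b' hi hj]

theorem exists_perm_face {n : ℕ} (i j : Fin (n + 1)) :
    ∃ π : Equiv.Perm (Fin n), (∀ a, Equiv.swap i j (j.succAbove a) = i.succAbove (π a)) ∧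
      (i ≠ j → (Equiv.Perm.sign π : ℤ) = -((-1) ^ (i : ℕ) * (-1) ^ (j : ℕ))) := by
  obtain ⟨ρ, hρ⟩ : ∃ ρ : Equiv.Perm (Fin (n + 1)),
      ρ = i.cycleRange * Equiv.swap i j * j.cycleRange⁻¹ := ⟨_, rfl⟩
  have hinv : (j.cycleRange⁻¹ : Equiv.Perm (Fin (n + 1))) = j.cycleRange.symm := rfl
  have h0 : ρ 0 = 0 := by
    rw [hρ, Equiv.Perm.mul_apply, Equiv.Perm.mul_apply, hinv, Fin.cycleRange_symm_zero,
      Equiv.swap_apply_right, Fin.cycleRange_self]
  obtain ⟨⟨p, π⟩, hpe⟩ := (Equiv.Perm.decomposeFin (n := n)).symm.surjective ρ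
  have hp : p = 0 := by
    rw [← h0, ← hpe, Equiv.Perm.decomposeFin_symm_apply_zero]
  subst hp
  refine ⟨π, ?_, ?_⟩
  · intro a
    have h1 : ρ a.succ = (π a).succ := by
      rw [← hpe, Equiv.Perm.decomposeFin_symm_apply_succ, Equiv.swap_self]
      rfl
    rw [hρ, Equiv.Perm.mul_apply, Equiv.Perm.mul_apply, hinv, Fin.cycleRange_symm_succ] at h1
    rw [← Fin.cycleRange_symm_succ i (π a), ← h1, Equiv.symm_apply_apply]
  · intro hij
    have h1 : Equiv.Perm.sign ρ = Equiv.Perm.sign π := by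
      rw [← hpe, Equiv.Perm.decomposeFin.symm_sign]
      simp
    rw [← h1, hρ, map_mul, map_mul, Equiv.Perm.sign_inv, Fin.sign_cycleRange, Fin.sign_cycleRange,
      Equiv.Perm.sign_swap hij]
    push_cast
    ring

/-- [RBCOC] -/
theorem rbCoc : RbCocStatement := by
  intro D s t ht
  obtain ⟨i, j, hij, h⟩ : ∃ i j : Fin (D + 2), i ≠ j ∧ ty (t i) = ty (t j) :=
    Fintype.exists_ne_map_eq_of_card_lt (fun i => ty (t i)) (by simp)
  have heq := eq_of_ty ht h
  have hsub : ∑ a : Fin (D + 2), (-1 : ℤ) ^ (a : ℕ) * rb s (fun b => t (a.succAbove b)) =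
      ∑ a ∈ {i, j}, (-1 : ℤ) ^ (a : ℕ) * rb s (fun b => t (a.succAbove b)) := by
    symm
    apply Finset.sum_subset (Finset.subset_univ _)
    intro a _ ha
    rw [Finset.mem_insert, Finset.mem_singleton, not_or] at ha
    obtain ⟨i', hi'⟩ := Fin.exists_succAbove_eq (Ne.symm ha.1)
    obtain ⟨j', hj'⟩ := Fin.exists_succAbove_eq (Ne.symm ha.2)
    have hne : i' ≠ j' := by
      rintro rfl
      exact hij (hi'.symm.trans hj')
    rw [rb_eq_zero_of_eq s hne (t := fun b => t (a.succAbove b)) (by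
      rw [hi', hj', heq]), mul_zero]
  rw [hsub, Finset.sum_pair hij]
  obtain ⟨π, h1, h2⟩ := exists_perm_face i j
  have h3 : (fun b => t (j.succAbove b)) = fun b => (fun c => t (i.succAbove c)) (π b) := by
    funext b
    change _ = t (i.succAbove (π b))
    rw [← h1]
    have hne := Fin.succAbove_ne j b
    rcases eq_or_ne (j.succAbove b) i with h4 | h4
    · rw [h4, Equiv.swap_apply_left, heq]
    · rw [Equiv.swap_apply_of_ne_of_ne h4 hne]
  rw [h3, rb_perm s (fun c => t (i.succAbove c)) π, h2 hij]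
  have h4 : ((-1 : ℤ) ^ (j : ℕ)) * ((-1 : ℤ) ^ (j : ℕ)) = 1 := by
    rw [← mul_pow]
    norm_num
  linear_combination (-(-1 : ℤ) ^ (i : ℕ) * rb s (fun c => t (i.succAbove c))) * h4

/-- [RBEXP] -/
theorem rbExp : RbExpStatement := by
  classical
  intro D G hG t ht
  by_cases hinj : Function.Injective t
  · have hty : Function.Injective (fun i => ty (t i)) := fun i j h => hinj (eq_of_ty ht h)
    obtain ⟨σ, hσ⟩ : ∃ σ : Equiv.Perm (Fin (D + 1)), ∀ i, σ i = ty (t i) :=
      ⟨Equiv.ofBijective _ (Finite.injective_iff_bijective.1 hty), fun i => rfl⟩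
    have hs : ∀ k : Fin D, ∃ b, t (σ⁻¹ k.succ) = some (k, b) := by
      intro k
      have h1 : ty (t (σ⁻¹ k.succ)) = k.succ := by
        rw [← hσ]
        exact σ.apply_symm_apply _
      rcases h2 : t (σ⁻¹ k.succ) with _ | ⟨k', b⟩
      · rw [h2] at h1
        exact absurd h1 (Fin.succ_ne_zero k).symm
      · rw [h2] at h1
        have h3 : k' = k := Fin.succ_injective _ h1
        exact ⟨b, by rw [h3]⟩
    choose s hs using hs
    have hst : ∀ i, t i = stdT s (σ i) := by
      intro i
      rcases h2 : t i with _ | ⟨k, b⟩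
      · have h3 : σ i = 0 := by rw [hσ, h2]; rfl
        rw [h3, stdT_zero]
      · have h3 : σ i = k.succ := by rw [hσ, h2]; rfl
        have h4 : i = σ⁻¹ k.succ := by rw [← h3]; exact (σ.symm_apply_apply i).symm
        rw [h3, stdT_succ, ← h2, h4, hs]
    have h1 : G t = (Equiv.Perm.sign σ : ℤ) * G (stdT s) := by
      rw [← hG σ (stdT s)]
      congr 1
      funext i
      exact hst i
    rw [Finset.sum_eq_single s]
    · rw [h1, rb_eq σ hst]
      ring
    · intro s' _ hne
      rw [rb_eq_zero, Int.cast_zero, mul_zero]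
      rintro ⟨σ', hσ'⟩
      apply hne
      funext k
      have h2 := hσ' (σ⁻¹ k.succ)
      rw [hs] at h2
      have h3 : σ' (σ⁻¹ k.succ) = k.succ := by
        induction h5 : σ' (σ⁻¹ k.succ) using Fin.cases with
        | zero =>
          rw [h5, stdT_zero] at h2
          exact absurd h2 (by simp)
        | succ k' =>
          rw [h5, stdT_succ] at h2
          simp only [Option.some.injEq, Prod.mk.injEq] at h2
          rw [h2.1]
      rw [h3, stdT_succ] at h2
      simp only [Option.some.injEq, Prod.mk.injEq, true_and] at h2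
      exact h2.symm
    · intro h
      exact absurd (Finset.mem_univ _) h
  · rw [Function.Injective] at hinj
    push Not at hinj
    obtain ⟨i, j, h1, h2⟩ := hinj
    have h3 : G t = 0 := by
      have h4 := hG (Equiv.swap i j) t
      rw [Equiv.Perm.sign_swap h2] at h4
      have h5 : (fun a => t (Equiv.swap i j a)) = t := by
        funext a
        rcases eq_or_ne a i with rfl | ha
        · rw [Equiv.swap_apply_left, h1]
        · rcases eq_or_ne a j with rfl | hb
          · rw [Equiv.swap_apply_right, h1]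
          · rw [Equiv.swap_apply_of_ne_of_ne ha hb]
      rw [h5] at h4
      push_cast at h4
      linarith
    rw [h3]
    symm
    refine Finset.sum_eq_zero fun s _ => ?_
    rw [rb_eq_zero_of_eq s h2 h1, Int.cast_zero, mul_zero]

end

end Pool.Agent.Lib.MP_72b724_gt.H36
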